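import Pool.Agent.W712.RP.All0
import Pool.Agent.W800.RP.PL
import Pool.Agent.W800.RP.L1
import Pool.Agent.W800.RP.U

/-!
Project RP (helper712), problem MP_5ec613_pr: the final theorem.
-/

set_option autoImplicit false

namespace Pool.Agent.W712.RP

/-- The final theorem. -/
theorem all : FinalStm :=
  all0 Pool.Agent.W800.RP.uu Pool.Agent.W800.RP.L1.l1 Pool.Agent.W800.RP.PL.pl

end Pool.Agent.W712.RP
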