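import Pool.Agent.W712.RP.Stm

/-!
Project RP (helper712): the final statement from the two-sided bounds.
-/

set_option autoImplicit false

open MeasureTheory Set Filter Topology
open scoped ENNReal

namespace Pool.Agent.W712.RP

theorem asymp_of_bounds {a b : ℕ → ℝ} {W : ℕ → ℝ≥0∞} (g : ℕ → ℝ) {ca Ca cb Cb : ℝ}
    (hca : 0 < ca) (hcb : 0 < cb) (n₀ : ℕ)
    (hW : ∀ n ≥ n₀, 0 < W n ∧ W n ≤ 1) (hg : ∀ n ≥ n₀, 0 < g n)
    (ha : ∀ n ≥ n₀, ENNReal.ofReal (ca * g n) * W n ≤ ENNReal.ofReal (a n) ∧
      ENNReal.ofReal (a n) ≤ ENNReal.ofReal (Ca * g n) * W n)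
    (hb : ∀ n ≥ n₀, ENNReal.ofReal (cb * g n) * W n ≤ ENNReal.ofReal (b n) ∧
      ENNReal.ofReal (b n) ≤ ENNReal.ofReal (Cb * g n) * W n) : Asymp a b := by
  -- real versions
  have key : ∀ n ≥ n₀, 0 < (W n).toReal ∧ ca * g n * (W n).toReal ≤ a n ∧
      a n ≤ |Ca| * g n * (W n).toReal ∧ cb * g n * (W n).toReal ≤ b n ∧
      b n ≤ |Cb| * g n * (W n).toReal := by
    intro n hn
    obtain ⟨hW0, hW1⟩ := hW n hn
    have hWt : W n ≠ ⊤ := ne_top_of_le_ne_top ENNReal.one_ne_top hW1
    have hgn := hg n hn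
    have hWr : 0 < (W n).toReal := ENNReal.toReal_pos hW0.ne' hWt
    have conv : ∀ c : ℝ, ENNReal.ofReal (c * g n) * W n =
        ENNReal.ofReal (c * g n * (W n).toReal) := by
      intro c
      conv_lhs => rw [← ENNReal.ofReal_toReal hWt]
      rw [← ENNReal.ofReal_mul' ENNReal.toReal_nonneg]
    have low : ∀ (c v : ℝ), 0 < c → ENNReal.ofReal (c * g n) * W n ≤ ENNReal.ofReal v →
        c * g n * (W n).toReal ≤ v := by
      intro c v hc h
      rw [conv] at h
      by_contra hlt
      push Not at hlt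
      have hpos : 0 < c * g n * (W n).toReal := by positivity
      have := (ENNReal.ofReal_lt_ofReal_iff hpos).2 hlt
      exact absurd h (not_le.2 this)
    have up : ∀ (c v : ℝ), ENNReal.ofReal v ≤ ENNReal.ofReal (c * g n) * W n →
        v ≤ |c| * g n * (W n).toReal := by
      intro c v h
      rw [conv] at h
      have h2 : ENNReal.ofReal (c * g n * (W n).toReal) ≤
          ENNReal.ofReal (|c| * g n * (W n).toReal) := by
        apply ENNReal.ofReal_le_ofReal
        have := le_abs_self c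
        gcongr
      exact (ENNReal.ofReal_le_ofReal_iff (by positivity)).1 (h.trans h2)
    exact ⟨hWr, low _ _ hca (ha n hn).1, up _ _ (ha n hn).2, low _ _ hcb (hb n hn).1,
      up _ _ (hb n hn).2⟩
  refine ⟨ca / (|Cb| + 1), |Ca| / cb, by positivity, n₀, fun n hn => ?_⟩
  obtain ⟨h0, h1, h2, h3, h4⟩ := key n hn
  have hgn := hg n hn
  have hbpos : 0 < b n := lt_of_lt_of_le (by positivity) h3
  refine ⟨hbpos, ?_, ?_⟩
  · calc ca / (|Cb| + 1) * b n ≤ ca / (|Cb| + 1) * (|Cb| * g n * (W n).toReal) := by gcongr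
      _ ≤ ca / (|Cb| + 1) * ((|Cb| + 1) * g n * (W n).toReal) := by gcongr; linarith
      _ = ca * g n * (W n).toReal := by field_simp
      _ ≤ a n := h1
  · calc a n ≤ |Ca| * g n * (W n).toReal := h2
      _ = |Ca| / cb * (cb * g n * (W n).toReal) := by field_simp
      _ ≤ |Ca| / cb * b n := by gcongr

theorem fin (hPR : S_PR) (hBall : S_BALL) (hEFA : S_EFA) (hDEF : S_DEF) (hWG : S_WG)
    (hMain : S_MAIN) : FinalStm := by
  intro m hm d hd K hK
  -- general facts for an admissible product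
  have gen : ∀ (K : ∀ i, Set (EuclideanSpace ℝ (Fin (d i)))), (∀ i, SmoothBody (K i)) →
      WellDefined (prodBody K) ∧ ∃ c C : ℝ, 0 < c ∧ ∃ n₀ : ℕ, ∀ n ≥ n₀,
      (ENNReal.ofReal (c * 1) * Wf (fun i => 2 / ((d i : ℝ) + 1)) (1 / n) ≤
          ENNReal.ofReal ((volume (prodBody K)).toReal - expVol (prodBody K) n) ∧
        ENNReal.ofReal ((volume (prodBody K)).toReal - expVol (prodBody K) n) ≤
          ENNReal.ofReal (C * 1) * Wf (fun i => 2 / ((d i : ℝ) + 1)) (1 / n)) ∧
      ∀ j < ∑ i, d i,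
        ENNReal.ofReal (c * n) * Wf (fun i => 2 / ((d i : ℝ) + 1)) (1 / n) ≤
          ENNReal.ofReal (expFaces (prodBody K) n j) ∧
        ENNReal.ofReal (expFaces (prodBody K) n j) ≤
          ENNReal.ofReal (C * n) * Wf (fun i => 2 / ((d i : ℝ) + 1)) (1 / n) := by
    intro K hK
    obtain ⟨hB, hfr, hP, hun, -⟩ := hPR m d K (fun i => (hK i).toBody)
    have hprob : IsProbabilityMeasure (unif (volume : Measure (∀ i, EuclideanSpace ℝ (Fin (d i))))
        (prodBody K)) := by
      rw [hun]
      infer_instance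
    refine ⟨⟨hprob, fun n hn j hj => (hEFA _ volume (prodBody K) hB n hn j hj).1,
      fun n => (hDEF _ volume (prodBody K) hB n).1⟩, ?_⟩
    obtain ⟨c, C, hc, n₀, h⟩ := hMain m hm d hd K hK
    have hV : 0 < (volume (prodBody K)).toReal := by
      apply ENNReal.toReal_pos
      · exact ((isOpen_interior.measure_pos volume hB.interior_nonempty).trans_le
          (measure_mono interior_subset)).ne'
      · exact hB.compact.measure_lt_top.ne
    set V := (volume (prodBody K)).toReal with hVdef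
    refine ⟨min c (V * c), max |C| (V * |C|), by positivity, n₀, fun n hn => ?_⟩
    obtain ⟨⟨h1, h2⟩, h3⟩ := h n hn
    have hdef := (hDEF _ volume (prodBody K) hB n).2
    have hdef' : V - expVol (prodBody K) n = V * (outP volume (prodBody K) n).toReal := hdef
    have hout : outP volume (prodBody K) n ≤ 1 := by
      unfold outP
      calc _ ≤ ∫⁻ _z, 1 ∂(unif volume (prodBody K)) :=
            lintegral_mono fun z => prob_le_one
        _ = 1 := by simp
    have hoT : outP volume (prodBody K) n ≠ ⊤ := ne_top_of_le_ne_top ENNReal.one_ne_top hout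
    have hofV : ENNReal.ofReal (V - expVol (prodBody K) n) =
        ENNReal.ofReal V * outP volume (prodBody K) n := by
      rw [hdef', ENNReal.ofReal_mul hV.le, ENNReal.ofReal_toReal hoT]
    refine ⟨⟨?_, ?_⟩, fun j hj => ⟨?_, ?_⟩⟩
    · rw [hofV, mul_one]
      calc ENNReal.ofReal (min c (V * c)) * _ ≤ ENNReal.ofReal (V * c) * _ :=
            mul_le_mul_left (ENNReal.ofReal_le_ofReal (min_le_right _ _)) _
        _ = ENNReal.ofReal V * (ENNReal.ofReal c * _) := by
            rw [ENNReal.ofReal_mul hV.le, mul_assoc]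
        _ ≤ _ := mul_le_mul_right h1 _
    · rw [hofV, mul_one]
      calc ENNReal.ofReal V * outP volume (prodBody K) n
          ≤ ENNReal.ofReal V * (ENNReal.ofReal C * _) := mul_le_mul_right h2 _
        _ = ENNReal.ofReal (V * C) * _ := by rw [ENNReal.ofReal_mul hV.le, mul_assoc]
        _ ≤ _ := by
          apply mul_le_mul_left
          apply ENNReal.ofReal_le_ofReal
          exact le_trans (mul_le_mul_of_nonneg_left (le_abs_self C) hV.le) (le_max_right _ _)
    · refine le_trans ?_ (h3 j hj).1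
      apply mul_le_mul_left
      apply ENNReal.ofReal_le_ofReal
      exact mul_le_mul_of_nonneg_right (min_le_left _ _) (Nat.cast_nonneg _)
    · refine le_trans (h3 j hj).2 ?_
      apply mul_le_mul_left
      apply ENNReal.ofReal_le_ofReal
      exact mul_le_mul_of_nonneg_right ((le_abs_self C).trans (le_max_left _ _))
        (Nat.cast_nonneg _)
  obtain ⟨hw1, c1, C1, hc1, n1, h1⟩ := gen K hK
  obtain ⟨hw2, c2, C2, hc2, n2, h2⟩ := gen (fun i => Metric.closedBall 0 1)
    (fun i => hBall (d i) (hd i))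
  have hWpos : ∀ n ≥ max (max n1 n2) 1, 0 < Wf (fun i => 2 / ((d i : ℝ) + 1)) (1 / n) ∧
      Wf (fun i => 2 / ((d i : ℝ) + 1)) (1 / n) ≤ 1 := by
    intro n hn
    have hn1 : 1 ≤ n := le_trans (le_max_right _ _) hn
    have := (hWG m hm (fun i => 2 / ((d i : ℝ) + 1)) (fun i => ⟨by positivity, by
      have : (1 : ℝ) ≤ d i := by exact_mod_cast hd i
      rw [div_le_one (by positivity)]
      linarith⟩)).1 (1 / n) (by positivity)
    exact this
  refine ⟨hw1, hw2, fun j hj => ?_, ?_⟩
  · apply asymp_of_bounds (W := fun n => Wf (fun i => 2 / ((d i : ℝ) + 1)) (1 / n))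
      (fun n => (n : ℝ)) hc1 hc2 (max (max n1 n2) 1) hWpos
    · intro n hn
      have : 1 ≤ n := le_trans (le_max_right _ _) hn
      positivity
    · intro n hn
      exact (h1 n (le_trans (le_trans (le_max_left _ _) (le_max_left _ _)) hn)).2 j hj
    · intro n hn
      exact (h2 n (le_trans (le_trans (le_max_right _ _) (le_max_left _ _)) hn)).2 j hj
  · apply asymp_of_bounds (W := fun n => Wf (fun i => 2 / ((d i : ℝ) + 1)) (1 / n))
      (fun _ => (1 : ℝ)) hc1 hc2 (max (max n1 n2) 1) hWpos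
    · intro n hn
      exact one_pos
    · intro n hn
      exact (h1 n (le_trans (le_trans (le_max_left _ _) (le_max_left _ _)) hn)).1
    · intro n hn
      exact (h2 n (le_trans (le_trans (le_max_right _ _) (le_max_left _ _)) hn)).1

end Pool.Agent.W712.RP
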