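import Pool.Agent.W712.RP.Stm

set_option autoImplicit false

open MeasureTheory Set Filter Topology
open scoped ENNReal

namespace Pool.Agent.W712.RP.UpFix

open Pool.Agent.W712.RP

/-- Splitting off the coordinates in `I`. -/
theorem split_pi {E : Type} [MeasurableSpace E] (P : Measure E) [IsProbabilityMeasure P]
    {n k : ℕ} (I : Finset (Fin n)) (hI : I.card = k) (e : Fin k ≃ {i // i ∈ I})
    (D : Set ((Fin k → E) × E)) (hD : MeasurableSet D) :
    (Measure.pi fun _ : Fin n => P) {x | ∀ i, i ∉ I → ((fun j => x (e j)), x i) ∈ D} =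
      ∫⁻ z, (P {y | (z, y) ∈ D}) ^ (n - k) ∂(Measure.pi fun _ : Fin k => P) := by
  have h1 := measurePreserving_piEquivPiSubtypeProd (fun _ : Fin n => P) (fun i => i ∈ I)
  set S' : Set (({i // i ∈ I} → E) × ({i // i ∉ I} → E)) :=
    {p | ∀ i : {i // i ∉ I}, ((fun j => p.1 (e j)), p.2 i) ∈ D} with hS'
  have hmS' : MeasurableSet S' := by
    have : S' = ⋂ i : {i // i ∉ I}, (fun p : ({i // i ∈ I} → E) × ({i // i ∉ I} → E) =>
        (((fun j => p.1 (e j)) : Fin k → E), p.2 i)) ⁻¹' D := by
      ext p; simp [hS']
    rw [this]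
    refine MeasurableSet.iInter fun i => ?_
    refine hD.preimage ?_
    refine Measurable.prodMk ?_ ?_
    · exact measurable_pi_lambda _ fun j => (measurable_pi_apply _).comp measurable_fst
    · exact (measurable_pi_apply _).comp measurable_snd
  have h2 : {x : Fin n → E | ∀ i, i ∉ I → ((fun j => x (e j)), x i) ∈ D} =
      (MeasurableEquiv.piEquivPiSubtypeProd (fun _ : Fin n => E) (fun i => i ∈ I)) ⁻¹' S' := by
    ext x
    simp [hS', MeasurableEquiv.piEquivPiSubtypeProd, Equiv.piEquivPiSubtypeProd]
  rw [h2, h1.measure_preimage hmS'.nullMeasurableSet, Measure.prod_apply hmS']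
  have h3 : ∀ u : {i // i ∈ I} → E,
      (Measure.pi fun _ : {i // i ∉ I} => P) (Prod.mk u ⁻¹' S') =
        (P {y | ((fun j => u (e j)), y) ∈ D}) ^ (n - k) := by
    intro u
    have : Prod.mk u ⁻¹' S' = Set.pi Set.univ (fun _ : {i // i ∉ I} => {y | ((fun j => u (e j)), y) ∈ D}) := by
      ext v; simp [hS']
    rw [this, Measure.pi_pi]
    simp only [Finset.prod_const, Finset.card_univ]
    congr 1
    rw [Fintype.card_subtype_compl, Fintype.card_fin, Fintype.card_coe, hI]
  simp_rw [h3]
  have h4 := measurePreserving_piCongrLeft (fun _ : {i // i ∈ I} => P) e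
  have h6 := h4.lintegral_comp_emb (MeasurableEquiv.measurableEmbedding _)
    (fun u : {i // i ∈ I} → E => (P {y | (((fun j => u (e j)) : Fin k → E), y) ∈ D}) ^ (n - k))
  refine Eq.trans ?_ (h6.symm.trans ?_)
  · have hft : (Subtype.fintype fun i => i ∈ I) = (Finset.Subtype.fintype I) :=
      Subsingleton.elim _ _
    rw [hft]
  refine lintegral_congr fun z => ?_
  have h5 : (fun j => (MeasurableEquiv.piCongrLeft (fun _ : {i // i ∈ I} => E) e) z (e j)) = z := by
    ext j
    exact MeasurableEquiv.piCongrLeft_apply_apply (β := fun _ : {i // i ∈ I} => E) e z j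
  simp only [h5]

section

variable {E : Type} [NormedAddCommGroup E] [NormedSpace ℝ E]

/-- The linear part of `side`. -/
noncomputable def sideLin {k : ℕ} (b : Module.Basis (Fin (k + 1)) ℝ E) (v : Fin k → E) : E →ₗ[ℝ] ℝ where
  toFun w := b.det (Fin.cons w v)
  map_add' x y := by
    have := b.det.toMultilinearMap.cons_add v x y
    simpa using this
  map_smul' c x := by
    have := b.det.toMultilinearMap.cons_smul v c x
    simpa using this

theorem sideLin_v {k : ℕ} (b : Module.Basis (Fin (k + 1)) ℝ E) (v : Fin k → E) (i : Fin k) :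
    sideLin b v (v i) = 0 := by
  show b.det (Fin.cons (v i) v) = 0
  refine AlternatingMap.map_eq_zero_of_eq _ _ (i := 0) (j := i.succ) ?_ (Fin.succ_ne_zero i).symm
  simp

theorem side_continuous [FiniteDimensional ℝ E] {k : ℕ} (b : Module.Basis (Fin (k + 1)) ℝ E) :
    Continuous (fun p : (Fin (k + 1) → E) × E => side b p.1 p.2) := by
  unfold side
  simp_rw [Module.Basis.det_apply]
  refine Continuous.matrix_det ?_
  refine continuous_matrix fun i j => ?_
  simp only [Module.Basis.toMatrix_apply]
  have h1 : Continuous (fun w : E => b.repr w i) := by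
    have := LinearMap.continuous_of_finiteDimensional (b.coord i)
    exact this
  refine h1.comp ?_
  refine Fin.cases ?_ (fun j => ?_) j
  · simp only [Fin.cons_zero]
    exact continuous_snd.sub ((continuous_apply 0).comp continuous_fst)
  · simp only [Fin.cons_succ]
    exact ((continuous_apply _).comp continuous_fst).sub ((continuous_apply 0).comp continuous_fst)

theorem facet_side [FiniteDimensional ℝ E] {k n : ℕ} (b : Module.Basis (Fin (k + 1)) ℝ E)
    (x : Fin n → E) (hx : GenPos x) (I : Finset (Fin n)) (hI : I.card = k + 1)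
    (hF : FaceSet x I) (e : Fin (k + 1) ≃ {i // i ∈ I}) :
    (∀ i, i ∉ I → 0 < side b (fun j => x (e j)) (x i)) ∨
      (∀ i, i ∉ I → side b (fun j => x (e j)) (x i) < 0) := by
  classical
  obtain ⟨l, c, hl1, hl2⟩ := hF
  by_cases hne : ∃ i0, i0 ∉ I
  swap
  · left
    intro i hi
    exact absurd ⟨i, hi⟩ hne
  obtain ⟨i0, hi0⟩ := hne
  set z : Fin (k + 1) → E := fun j => x (e j) with hz
  set v : Fin k → E := fun i => z i.succ - z 0 with hv
  have hlz : ∀ j, l (z j) = c := fun j => hl1 _ (e j).2
  have hlv : ∀ i, l (v i) = 0 := by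
    intro i
    simp [hv, hlz]
  have hfin : Module.finrank ℝ E = k + 1 := by
    rw [Module.finrank_eq_card_basis b, Fintype.card_fin]
  have haff : AffineIndependent ℝ z := by
    have h1 := hx I (by omega)
    exact h1.comp_embedding e.toEmbedding
  have hlin : LinearIndependent ℝ v := by
    have h1 := (affineIndependent_iff_linearIndependent_vsub ℝ z 0).1 haff
    have h2 := h1.comp (fun i : Fin k => (⟨i.succ, Fin.succ_ne_zero i⟩ : {x : Fin (k+1) // x ≠ 0}))
      (by
        intro i j hij
        simpa using hij)
    exact h2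
  set w : E := x i0 - z 0 with hw
  have hlw : l w < 0 := by
    have := hl2 i0 hi0
    simp [hw, hlz]
    linarith
  have hspan : w ∉ Submodule.span ℝ (Set.range v) := by
    intro hmem
    have h1 : Submodule.span ℝ (Set.range v) ≤ LinearMap.ker l.toLinearMap := by
      rw [Submodule.span_le]
      rintro _ ⟨i, rfl⟩
      exact hlv i
    have := h1 hmem
    have h2 : l w = 0 := this
    linarith
  have hindep : LinearIndependent ℝ (Fin.cons w v : Fin (k + 1) → E) :=
    linearIndependent_finCons.2 ⟨hlin, hspan⟩
  have htop : Submodule.span ℝ (Set.range (Fin.cons w v : Fin (k + 1) → E)) = ⊤ := by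
    apply hindep.span_eq_top_of_card_eq_finrank
    simp [hfin]
  have hdet : IsUnit (b.det (Fin.cons w v : Fin (k + 1) → E)) :=
    (Module.Basis.is_basis_iff_det b).1 ⟨hindep, htop⟩
  have hLw : sideLin b v w ≠ 0 := hdet.ne_zero
  have hφ : ∀ y, sideLin b v w * l y = l w * sideLin b v y := by
    have h0 : (sideLin b v w) • l.toLinearMap - (l w) • sideLin b v = 0 := by
      apply LinearMap.ext_on_range htop
      intro j
      refine Fin.cases ?_ (fun j => ?_) j
      · simp
        ring
      · simp [hlv, sideLin_v]
    intro y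
    have h1 := LinearMap.congr_fun h0 y
    simp at h1
    linarith
  have hside : ∀ i, side b z (x i) = sideLin b v (x i - z 0) := fun i => rfl
  have hneg : ∀ i, i ∉ I → l (x i - z 0) < 0 := by
    intro i hi
    have := hl2 i hi
    simp [hlz]
    linarith
  rcases lt_or_gt_of_ne hLw with h | h
  · right
    intro i hi
    rw [hside]
    have h1 := hφ (x i - z 0)
    have h2 := hneg i hi
    have h3 : 0 < l w * sideLin b v (x i - z 0) := by
      rw [← h1]
      exact mul_pos_of_neg_of_neg h h2
    by_contra hcon
    push Not at hcon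
    have := mul_nonpos_of_nonpos_of_nonneg hlw.le hcon
    linarith
  · left
    intro i hi
    rw [hside]
    have h1 := hφ (x i - z 0)
    have h2 := hneg i hi
    have h3 : l w * sideLin b v (x i - z 0) < 0 := by
      rw [← h1]
      exact mul_neg_of_pos_of_neg h h2
    by_contra hcon
    push Not at hcon
    have := mul_nonneg_of_nonpos_of_nonpos hlw.le hcon
    linarith

end

theorem up (hGP : S_GP) : S_UP := by
  classical
  intro E _ _ _ _ _ μ _ L hL k b n I hI hn
  have hfin : Module.finrank ℝ E = k + 1 := by
    rw [Module.finrank_eq_card_basis b, Fintype.card_fin]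
  have hmeasL : MeasurableSet L := hL.compact.isClosed.measurableSet
  have hfinL : μ L ≠ ⊤ := hL.compact.measure_lt_top.ne
  have hposL : μ L ≠ 0 := by
    have h1 : 0 < μ (interior L) := isOpen_interior.measure_pos μ hL.interior_nonempty
    exact (h1.trans_le (measure_mono interior_subset)).ne'
  have hprob : IsProbabilityMeasure (unif μ L) := by
    constructor
    simp only [unif, Measure.smul_apply, smul_eq_mul, Measure.restrict_apply_univ]
    exact ENNReal.inv_mul_cancel hposL hfinL
  have hgp := hGP E μ L hL (by omega) n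
  have e : Fin (k + 1) ≃ {i // i ∈ I} := (I.equivFinOfCardEq hI).symm
  set Dp : Set ((Fin (k + 1) → E) × E) := {p | 0 < side b p.1 p.2} with hDp
  set Dm : Set ((Fin (k + 1) → E) × E) := {p | side b p.1 p.2 < 0} with hDm
  have hDpo : IsOpen Dp := isOpen_lt continuous_const (side_continuous b)
  have hDmo : IsOpen Dm := isOpen_lt (side_continuous b) continuous_const
  have hDpm : MeasurableSet Dp := hDpo.measurableSet
  have hDmm : MeasurableSet Dm := hDmo.measurableSet
  have h1 := split_pi (unif μ L) I hI e Dp hDpm
  have h2 := split_pi (unif μ L) I hI e Dm hDmm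
  have hsub : (Measure.pi fun _ : Fin n => unif μ L) {x : Fin n → E | FaceSet x I} ≤
      (Measure.pi fun _ : Fin n => unif μ L)
        ({x | ∀ i, i ∉ I → ((fun j => x (e j)), x i) ∈ Dp} ∪
        {x | ∀ i, i ∉ I → ((fun j => x (e j)), x i) ∈ Dm}) := by
    refine measure_mono_ae ?_
    filter_upwards [hgp] with x hx hF
    exact facet_side b x hx I hI hF e
  have hmz : ∀ z : Fin (k + 1) → E, MeasurableSet {y | side b z y < 0} ∧
      MeasurableSet {y | 0 < side b z y} := by
    intro z
    have hc : Continuous (fun y => side b z y) :=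
      (side_continuous b).comp (Continuous.prodMk continuous_const continuous_id)
    exact ⟨(isOpen_lt hc continuous_const).measurableSet,
      (isOpen_lt continuous_const hc).measurableSet⟩
  have hb1 : ∀ z : Fin (k + 1) → E, unif μ L {y | (z, y) ∈ Dp} ≤ 1 - cutP μ L b z := by
    intro z
    calc unif μ L {y | (z, y) ∈ Dp} ≤ unif μ L ({y | side b z y < 0}ᶜ) := by
          refine measure_mono fun y hy => ?_
          have : 0 < side b z y := hy
          simp only [mem_compl_iff, Set.mem_ofPred_eq, not_lt]
          exact this.le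
      _ = 1 - unif μ L {y | side b z y < 0} := prob_compl_eq_one_sub (hmz z).1
      _ ≤ 1 - cutP μ L b z := by
          gcongr
          exact min_le_right _ _
  have hb2 : ∀ z : Fin (k + 1) → E, unif μ L {y | (z, y) ∈ Dm} ≤ 1 - cutP μ L b z := by
    intro z
    calc unif μ L {y | (z, y) ∈ Dm} ≤ unif μ L ({y | 0 < side b z y}ᶜ) := by
          refine measure_mono fun y hy => ?_
          have : side b z y < 0 := hy
          simp only [mem_compl_iff, Set.mem_ofPred_eq, not_lt]
          exact this.le
      _ = 1 - unif μ L {y | 0 < side b z y} := prob_compl_eq_one_sub (hmz z).2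
      _ ≤ 1 - cutP μ L b z := by
          gcongr
          exact min_le_left _ _
  unfold faceP
  refine hsub.trans ((measure_union_le _ _).trans ?_)
  rw [h1, h2, two_mul]
  refine add_le_add ?_ ?_
  · refine lintegral_mono fun z => ?_
    exact pow_le_pow_left' (hb1 z) _
  · refine lintegral_mono fun z => ?_
    exact pow_le_pow_left' (hb2 z) _

end Pool.Agent.W712.RP.UpFix
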