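import Pool.Agent.W712.RP.Defs

/-!
Project RP (helper712), problem MP_5ec613_pr: statements of the parts.
-/

set_option autoImplicit false

open MeasureTheory Set Filter Topology
open scoped ENNReal

namespace Pool.Agent.W712.RP

/-! ### Combinatorics of faces -/

/-- Every set of at most `dim + 1` of the points is affinely independent. -/
def GenPos {E : Type} [NormedAddCommGroup E] [NormedSpace ℝ E] {n : ℕ} (x : Fin n → E) : Prop :=
  ∀ J : Finset (Fin n), J.card ≤ Module.finrank ℝ E + 1 →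
    AffineIndependent ℝ (fun i : J => x i)

/-- The points `x i`, `i ∈ I`, are the points on some supporting hyperplane. -/
def FaceSet {E : Type} [NormedAddCommGroup E] [NormedSpace ℝ E] {n : ℕ} (x : Fin n → E)
    (I : Finset (Fin n)) : Prop :=
  ∃ (l : E →L[ℝ] ℝ) (c : ℝ), (∀ i ∈ I, l (x i) = c) ∧ ∀ k, k ∉ I → l (x k) < c

/-- RP-GP: general position almost surely. -/
def S_GP : Prop :=
  ∀ (E : Type) [NormedAddCommGroup E] [NormedSpace ℝ E] [FiniteDimensional ℝ E]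
    [MeasurableSpace E] [BorelSpace E] (μ : Measure E) [μ.IsAddHaarMeasure] (L : Set E),
    Body L → 1 ≤ Module.finrank ℝ E →
    ∀ n : ℕ, ∀ᵐ x ∂(Measure.pi fun _ : Fin n => unif μ L), GenPos x

/-- RP-FS: subsets of faces are faces. -/
def S_FS : Prop :=
  ∀ (E : Type) [NormedAddCommGroup E] [NormedSpace ℝ E] [FiniteDimensional ℝ E] (n : ℕ)
    (x : Fin n → E), GenPos x → ∀ I J : Finset (Fin n), I.card ≤ Module.finrank ℝ E →
    FaceSet x I → J ⊆ I → J.Nonempty → FaceSet x J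

/-- RP-FE: faces which are not facets can be extended. -/
def S_FE : Prop :=
  ∀ (E : Type) [NormedAddCommGroup E] [NormedSpace ℝ E] [FiniteDimensional ℝ E] (n : ℕ)
    (x : Fin n → E), GenPos x → Module.finrank ℝ E + 1 ≤ n →
    ∀ I : Finset (Fin n), I.Nonempty → I.card < Module.finrank ℝ E →
    FaceSet x I → ∃ k, k ∉ I ∧ FaceSet x (insert k I)

/-- RP-CNT: counting faces. -/
def S_CNT : Prop :=
  ∀ (n d : ℕ) (F : Finset (Fin n) → Prop),
    (∀ I J : Finset (Fin n), I.card ≤ d → F I → J ⊆ I → J.Nonempty → F J) →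
    (∀ I : Finset (Fin n), I.Nonempty → I.card < d → F I → ∃ k, k ∉ I ∧ F (insert k I)) →
    ∀ j < d,
      Set.ncard {I : Finset (Fin n) | I.card = 1 ∧ F I} ≤
        (j + 1) * Set.ncard {I : Finset (Fin n) | I.card = j + 1 ∧ F I} ∧
      Set.ncard {I : Finset (Fin n) | I.card = j + 1 ∧ F I} ≤
        d.choose (j + 1) * Set.ncard {I : Finset (Fin n) | I.card = d ∧ F I}

/-- RP-FC: the number of `j`-faces of the convex hull of points in general position. -/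
def S_FC : Prop :=
  ∀ (E : Type) [NormedAddCommGroup E] [NormedSpace ℝ E] [FiniteDimensional ℝ E] (n : ℕ)
    (x : Fin n → E), GenPos x → Module.finrank ℝ E + 1 ≤ n → ∀ j < Module.finrank ℝ E,
    faceNum (convexHull ℝ (Set.range x)) j =
      Set.ncard {I : Finset (Fin n) | I.card = j + 1 ∧ FaceSet x I}

/-- RP-VX: vertices are the points outside the convex hull of the others. -/
def S_VX : Prop :=
  ∀ (E : Type) [NormedAddCommGroup E] [NormedSpace ℝ E] [FiniteDimensional ℝ E] (n : ℕ)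
    (x : Fin (n + 1) → E) (i : Fin (n + 1)),
    FaceSet x {i} ↔ x i ∉ convexHull ℝ (Set.range fun j : Fin n => x (i.succAbove j))

/-! ### Measurability and expectations -/

/-- RP-MF: measurability of the face events. -/
def S_MF : Prop :=
  ∀ (E : Type) [NormedAddCommGroup E] [NormedSpace ℝ E] [FiniteDimensional ℝ E]
    [MeasurableSpace E] [BorelSpace E] (n : ℕ) (I : Finset (Fin n)),
    MeasurableSet {x : Fin n → E | FaceSet x I}

/-- RP-MH: the graph of the convex hull is closed. -/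
def S_MH : Prop :=
  ∀ (E : Type) [NormedAddCommGroup E] [NormedSpace ℝ E] [FiniteDimensional ℝ E] (n : ℕ),
    IsClosed {p : (Fin n → E) × E | p.2 ∈ convexHull ℝ (Set.range p.1)}

/-- The probability that a random point is outside the convex hull of `n` others. -/
noncomputable def outP {E : Type} [NormedAddCommGroup E] [NormedSpace ℝ E] [MeasurableSpace E]
    (μ : Measure E) (L : Set E) (n : ℕ) : ℝ≥0∞ :=
  ∫⁻ z, (Measure.pi fun _ : Fin n => unif μ L)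
    {x : Fin n → E | z ∉ convexHull ℝ (Set.range x)} ∂(unif μ L)

/-- The probability of a face event. -/
noncomputable def faceP {E : Type} [NormedAddCommGroup E] [NormedSpace ℝ E] [MeasurableSpace E]
    (μ : Measure E) (L : Set E) (n : ℕ) (I : Finset (Fin n)) : ℝ≥0∞ :=
  (Measure.pi fun _ : Fin n => unif μ L) {x : Fin n → E | FaceSet x I}

/-- RP-EFA: expected face numbers as sums of probabilities; integrability. -/
def S_EFA : Prop :=
  ∀ (E : Type) [NormedAddCommGroup E] [NormedSpace ℝ E] [FiniteDimensional ℝ E]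
    [MeasurableSpace E] [BorelSpace E] (μ : Measure E) [μ.IsAddHaarMeasure] (L : Set E),
    Body L → ∀ n : ℕ, Module.finrank ℝ E + 1 ≤ n → ∀ j < Module.finrank ℝ E,
    Integrable (fun x : Fin n → E => (faceNum (convexHull ℝ (Set.range x)) j : ℝ))
      (Measure.pi fun _ : Fin n => unif μ L) ∧
    ENNReal.ofReal (∫ x : Fin n → E, (faceNum (convexHull ℝ (Set.range x)) j : ℝ)
      ∂(Measure.pi fun _ : Fin n => unif μ L)) =
      ∑ I ∈ Finset.powersetCard (j + 1) (Finset.univ : Finset (Fin n)), faceP μ L n I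

/-- RP-EFB: comparison of the expected face numbers. -/
def S_EFB : Prop :=
  ∀ (E : Type) [NormedAddCommGroup E] [NormedSpace ℝ E] [FiniteDimensional ℝ E]
    [MeasurableSpace E] [BorelSpace E] (μ : Measure E) [μ.IsAddHaarMeasure] (L : Set E),
    Body L → ∀ n : ℕ, Module.finrank ℝ E + 1 ≤ n → ∀ j < Module.finrank ℝ E,
    ∑ I ∈ Finset.powersetCard 1 (Finset.univ : Finset (Fin n)), faceP μ L n I ≤
      ((j + 1 : ℕ) : ℝ≥0∞) *
        ∑ I ∈ Finset.powersetCard (j + 1) (Finset.univ : Finset (Fin n)), faceP μ L n I ∧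
    ∑ I ∈ Finset.powersetCard (j + 1) (Finset.univ : Finset (Fin n)), faceP μ L n I ≤
      ((Module.finrank ℝ E).choose (j + 1) : ℝ≥0∞) *
        ∑ I ∈ Finset.powersetCard (Module.finrank ℝ E) (Finset.univ : Finset (Fin n)),
          faceP μ L n I

/-- RP-EFC: the vertex probability (Efron). -/
def S_EFC : Prop :=
  ∀ (E : Type) [NormedAddCommGroup E] [NormedSpace ℝ E] [FiniteDimensional ℝ E]
    [MeasurableSpace E] [BorelSpace E] (μ : Measure E) [μ.IsAddHaarMeasure] (L : Set E),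
    Body L → ∀ (n : ℕ) (i : Fin (n + 1)), faceP μ L (n + 1) {i} = outP μ L n

/-- RP-DEF: the expected volume deficit (Efron). -/
def S_DEF : Prop :=
  ∀ (E : Type) [NormedAddCommGroup E] [NormedSpace ℝ E] [FiniteDimensional ℝ E]
    [MeasurableSpace E] [BorelSpace E] (μ : Measure E) [μ.IsAddHaarMeasure] (L : Set E),
    Body L → ∀ n : ℕ,
    Integrable (fun x : Fin n → E => (μ (convexHull ℝ (Set.range x))).toReal)
      (Measure.pi fun _ : Fin n => unif μ L) ∧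
    (μ L).toReal - ∫ x : Fin n → E, (μ (convexHull ℝ (Set.range x))).toReal
      ∂(Measure.pi fun _ : Fin n => unif μ L) = (μ L).toReal * (outP μ L n).toReal

/-- RP-LOW: lower bound for the vertex probability. -/
def S_LOW : Prop :=
  ∀ (E : Type) [NormedAddCommGroup E] [NormedSpace ℝ E] [FiniteDimensional ℝ E]
    [MeasurableSpace E] [BorelSpace E] (μ : Measure E) [μ.IsAddHaarMeasure] (L : Set E),
    Body L → ∀ n : ℕ, 2 ≤ n → ∀ A : Set E, MeasurableSet A →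
    (∀ z ∈ A, ∃ l : E →L[ℝ] ℝ, unif μ L {y | l z ≤ l y} ≤ ENNReal.ofReal (1 / n)) →
    unif μ L A ≤ 4 * outP μ L n

/-! ### Facets -/

/-- On which side of the hyperplane through the points `x` is `y`? -/
noncomputable def side {E : Type} [NormedAddCommGroup E] [NormedSpace ℝ E] {k : ℕ}
    (b : Module.Basis (Fin (k + 1)) ℝ E) (x : Fin (k + 1) → E) (y : E) : ℝ :=
  b.det (Fin.cons (y - x 0) (fun i : Fin k => x i.succ - x 0))

/-- The smaller part cut off by the hyperplane through the points `x`. -/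
noncomputable def cutP {E : Type} [NormedAddCommGroup E] [NormedSpace ℝ E] [MeasurableSpace E]
    (μ : Measure E) (L : Set E) {k : ℕ} (b : Module.Basis (Fin (k + 1)) ℝ E)
    (x : Fin (k + 1) → E) : ℝ≥0∞ :=
  min (unif μ L {y | 0 < side b x y}) (unif μ L {y | side b x y < 0})

/-- RP-UP: the probability of a facet. -/
def S_UP : Prop :=
  ∀ (E : Type) [NormedAddCommGroup E] [NormedSpace ℝ E] [FiniteDimensional ℝ E]
    [MeasurableSpace E] [BorelSpace E] (μ : Measure E) [μ.IsAddHaarMeasure] (L : Set E),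
    Body L → ∀ (k : ℕ) (b : Module.Basis (Fin (k + 1)) ℝ E) (n : ℕ) (I : Finset (Fin n)),
    I.card = k + 1 → k + 2 ≤ n →
    faceP μ L n I ≤ 2 * ∫⁻ x, (1 - cutP μ L b x) ^ (n - (k + 1))
      ∂(Measure.pi fun _ : Fin (k + 1) => unif μ L)

/-- Macbeath region with centre `z` and factor `c`. -/
def Mac {E : Type} [NormedAddCommGroup E] [NormedSpace ℝ E] (L : Set E) (z : E) (c : ℝ) :
    Set E :=
  {y | z + c⁻¹ • (y - z) ∈ L ∧ z - c⁻¹ • (y - z) ∈ L}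

/-- The relative volume of the Macbeath region. -/
noncomputable def macP {E : Type} [NormedAddCommGroup E] [NormedSpace ℝ E] [MeasurableSpace E]
    (μ : Measure E) (L : Set E) (z : E) : ℝ≥0∞ :=
  unif μ L (Mac L z 1)

/-- RP-HEL: a point of asymmetry at most `dim` in a compact convex set (Helly). -/
def S_HEL : Prop :=
  ∀ (E : Type) [NormedAddCommGroup E] [NormedSpace ℝ E] [FiniteDimensional ℝ E] (C : Set E),
    1 ≤ Module.finrank ℝ E → Convex ℝ C → IsCompact C → C.Nonempty →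
    ∃ z ∈ C, ∀ y ∈ C, z - ((Module.finrank ℝ E : ℝ))⁻¹ • (y - z) ∈ C

/-- RP-CAP: every cap `C` of `L` is contained in the Macbeath regions (factor `2 d + 1`) of many
points `z`, whose own Macbeath regions have at most twice the volume of the cap. -/
def S_CAP : Prop :=
  ∀ (E : Type) [NormedAddCommGroup E] [NormedSpace ℝ E] [FiniteDimensional ℝ E]
    [MeasurableSpace E] [BorelSpace E] (μ : Measure E) [μ.IsAddHaarMeasure] (L : Set E),
    Body L → 1 ≤ Module.finrank ℝ E → ∀ (l : E →L[ℝ] ℝ) (c : ℝ),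
    unif μ L {y | c ≤ l y} ≤
      ENNReal.ofReal ((2 * Module.finrank ℝ E) ^ Module.finrank ℝ E) *
      unif μ L {z | (∀ y ∈ L, c ≤ l y → y ∈ Mac L z (2 * Module.finrank ℝ E + 1)) ∧
        macP μ L z ≤ 2 * unif μ L {y | c ≤ l y}}

/-- RP-MAC: the double counting argument. -/
def S_MAC : Prop :=
  ∀ (E : Type) [NormedAddCommGroup E] [NormedSpace ℝ E] [FiniteDimensional ℝ E]
    [MeasurableSpace E] [BorelSpace E] (μ : Measure E) [μ.IsAddHaarMeasure] (L : Set E),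
    Body L → ∀ (k : ℕ) (b : Module.Basis (Fin (k + 1)) ℝ E) (N : ℕ),
    ∫⁻ x, (1 - cutP μ L b x) ^ N ∂(Measure.pi fun _ : Fin (k + 1) => unif μ L) ≤
      ENNReal.ofReal (2 * (2 * (k + 1)) ^ (k + 1) * (2 * k + 3) ^ ((k + 1) * (k + 1))) *
      ∫⁻ z, (macP μ L z) ^ k * (1 - macP μ L z / 2) ^ N ∂(unif μ L)

/-- RP-SUM: the upper bound for the expected number of facets. -/
def S_SUM : Prop :=
  ∀ k : ℕ, ∃ C : ℝ, ∀ (E : Type) [NormedAddCommGroup E] [NormedSpace ℝ E]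
    [FiniteDimensional ℝ E] [MeasurableSpace E] [BorelSpace E] (μ : Measure E)
    [μ.IsAddHaarMeasure] (L : Set E), Body L → Module.finrank ℝ E = k + 1 →
    ∀ n : ℕ, 2 * (k + 1) ≤ n →
    ∑ I ∈ Finset.powersetCard (k + 1) (Finset.univ : Finset (Fin n)), faceP μ L n I ≤
      ENNReal.ofReal (C * n) *
        ∫⁻ z, ENNReal.ofReal (Real.exp (-(n : ℝ) * (macP μ L z).toReal / 8)) ∂(unif μ L)

/-! ### Comparison with the model distribution -/

/-- The distribution function of a product of independent variables `U_i^(1/a_i)`. -/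
noncomputable def Wf {m : ℕ} (a : Fin m → ℝ) (t : ℝ) : ℝ≥0∞ :=
  volume {r : Fin m → ℝ | (∀ i, 0 ≤ r i ∧ r i ≤ 1) ∧ ∏ i, (r i) ^ (1 / a i) ≤ t}

/-- RP-WU: upper comparison. -/
def S_WU : Prop :=
  ∀ (m : ℕ) (Ω : Fin m → Type) [∀ i, MeasurableSpace (Ω i)] (P : ∀ i, Measure (Ω i))
    [∀ i, IsProbabilityMeasure (P i)] (f : ∀ i, Ω i → ℝ) (_ : ∀ i, Measurable (f i))
    (_ : ∀ i ω, 0 ≤ f i ω) (a : Fin m → ℝ) (_ : ∀ i, 0 < a i) (C : ℝ) (_ : 1 ≤ C)
    (_ : ∀ i, ∀ s : ℝ, 0 < s → P i {ω | f i ω ≤ s} ≤ ENNReal.ofReal (C * s ^ a i)),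
    ∀ t : ℝ, 0 < t →
      Measure.pi P {ω | ∏ i, f i (ω i) ≤ t} ≤ ENNReal.ofReal (C ^ m) * Wf a t

/-- RP-WL: lower comparison. -/
def S_WL : Prop :=
  ∀ (m : ℕ) (Ω : Fin m → Type) [∀ i, MeasurableSpace (Ω i)] (P : ∀ i, Measure (Ω i))
    [∀ i, IsProbabilityMeasure (P i)] (f : ∀ i, Ω i → ℝ) (_ : ∀ i, Measurable (f i))
    (_ : ∀ i ω, 0 ≤ f i ω) (a : Fin m → ℝ) (_ : ∀ i, 0 < a i) (c : ℝ) (_ : 0 < c)
    (_ : ∀ i, ∀ s : ℝ, 0 < s → s ≤ 1 → ENNReal.ofReal (c * s ^ a i) ≤ P i {ω | f i ω ≤ s}),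
    ∀ t : ℝ, 0 < t →
      ENNReal.ofReal (c ^ m) * Wf a t ≤ Measure.pi P {ω | ∏ i, f i (ω i) ≤ t}

/-- RP-WG: growth and positivity of the model distribution function. -/
def S_WG : Prop :=
  ∀ (m : ℕ) (_ : 0 < m) (a : Fin m → ℝ) (_ : ∀ i, 0 < a i ∧ a i ≤ 1),
    (∀ t : ℝ, 0 < t → 0 < Wf a t ∧ Wf a t ≤ 1) ∧ (Monotone (Wf a)) ∧
    ∀ (c t : ℝ), 1 ≤ c → 0 < t → Wf a (c * t) ≤ ENNReal.ofReal c * Wf a t

/-- RP-WE: from the distribution function to the exponential integral. -/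
def S_WE : Prop :=
  ∀ (m : ℕ) (_ : 0 < m) (a : Fin m → ℝ) (_ : ∀ i, 0 < a i ∧ a i ≤ 1) (C : ℝ), 0 ≤ C →
    ∃ C' : ℝ, ∀ (Ω : Type) [MeasurableSpace Ω] (P : Measure Ω) [IsProbabilityMeasure P]
      (u : Ω → ℝ) (_ : Measurable u) (_ : ∀ ω, 0 ≤ u ω)
      (_ : ∀ t : ℝ, 0 < t → P {ω | u ω ≤ t} ≤ ENNReal.ofReal C * Wf a t), ∀ n : ℕ, 1 ≤ n →
      ∫⁻ ω, ENNReal.ofReal (Real.exp (-(n : ℝ) * u ω / 8)) ∂P ≤
        ENNReal.ofReal C' * Wf a (1 / n)

/-! ### One smooth body: upper bound (valid for every convex body) -/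

/-- Depth of `z` in `K`. -/
noncomputable def dep {k : ℕ} (K : Set (EuclideanSpace ℝ (Fin k)))
    (z : EuclideanSpace ℝ (Fin k)) : ℝ :=
  Metric.infDist z Kᶜ

/-- Volume of the inner parallel body. -/
noncomputable def inV {k : ℕ} (K : Set (EuclideanSpace ℝ (Fin k))) (t : ℝ) : ℝ :=
  (volume {z | z ∈ K ∧ t ≤ dep K z}).toReal

/-- `z` lies in a ball of radius `s + dep z` inside `K` touching the boundary. -/
def Good {k : ℕ} (K : Set (EuclideanSpace ℝ (Fin k))) (s : ℝ) : Set (EuclideanSpace ℝ (Fin k)) :=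
  {z | z ∈ K ∧ ∃ w, dist z w ≤ s ∧ s + dep K z ≤ dep K w}

/-- RP-U1: the Macbeath region of a point deep in a ball. -/
def S_U1 : Prop :=
  ∀ k : ℕ, 1 ≤ k → ∃ c : ℝ, 0 < c ∧ ∀ (K : Set (EuclideanSpace ℝ (Fin k))) (_ : Body K)
    (w z : EuclideanSpace ℝ (Fin k)) (ρ τ : ℝ), 0 < τ → τ ≤ ρ → Metric.closedBall w ρ ⊆ K →
    dist z w ≤ ρ - τ →
    c * ρ ^ (((k : ℝ) - 1) / 2) * τ ^ (((k : ℝ) + 1) / 2) ≤ (volume (Mac K z 1)).toReal

/-- RP-U2: Brunn-Minkowski for the inner parallel bodies. -/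
def S_U2 : Prop :=
  ∀ k : ℕ, 1 ≤ k → ∀ (K : Set (EuclideanSpace ℝ (Fin k))) (_ : Body K),
    Metric.closedBall 0 1 ⊆ K → ∀ s t : ℝ, 0 ≤ s → 0 ≤ t → s + t < 1 →
    (1 - (s + t)) ^ (k - 1) * (inV K 0 - inV K t) ≤ inV K s - inV K (s + t)

/-- RP-U3: many good points (monotone normal map). -/
def S_U3 : Prop :=
  ∀ k : ℕ, 1 ≤ k → ∀ (K : Set (EuclideanSpace ℝ (Fin k))) (_ : Body K),
    ∀ s t : ℝ, 0 < s → 0 < t → IsClosed (Good K s) ∧
    inV K s - inV K (s + t) ≤ (volume {z | z ∈ Good K s ∧ dep K z < t}).toReal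

/-- RP-U4: the volume of the boundary layer. -/
def S_U4 : Prop :=
  ∀ k : ℕ, 1 ≤ k → ∀ (K : Set (EuclideanSpace ℝ (Fin k))) (_ : Body K),
    Metric.closedBall 0 1 ⊆ K → ∀ t : ℝ, 0 ≤ t →
    (volume {z | z ∈ K ∧ dep K z < t}).toReal ≤ k * t * (volume K).toReal

/-- RP-U5: few bad points. -/
def S_U5 : Prop :=
  ∀ k : ℕ, 1 ≤ k → ∀ (K : Set (EuclideanSpace ℝ (Fin k))) (_ : Body K),
    Metric.closedBall 0 1 ⊆ K → ∀ s t : ℝ, 0 < s → 0 < t → s + t < 1 →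
    (volume {z | z ∈ K ∧ dep K z < t ∧ z ∉ Good K s}).toReal ≤
      k ^ 2 * (s + t) * t * (volume K).toReal

/-- RP-U6: the distribution of the Macbeath volume, normalised body. -/
def S_U6 : Prop :=
  ∀ k : ℕ, 1 ≤ k → ∀ (K : Set (EuclideanSpace ℝ (Fin k))) (_ : Body K),
    Metric.closedBall 0 1 ⊆ K → ∃ C : ℝ, ∀ s : ℝ, 0 < s →
    (volume {z | z ∈ K ∧ (volume (Mac K z 1)).toReal ≤ s}).toReal ≤
      C * s ^ (2 / ((k : ℝ) + 1))

/-- RP-U: the distribution of the Macbeath volume. -/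
def S_U : Prop :=
  ∀ k : ℕ, 1 ≤ k → ∀ (K : Set (EuclideanSpace ℝ (Fin k))) (_ : Body K),
    ∃ C : ℝ, 1 ≤ C ∧ ∀ s : ℝ, 0 < s →
    unif volume K {z | (macP volume K z).toReal ≤ s} ≤
      ENNReal.ofReal (C * s ^ (2 / ((k : ℝ) + 1)))

/-! ### One smooth body: lower bound -/

/-- RP-L1: outer balls. -/
def S_L1 : Prop :=
  ∀ k : ℕ, 1 ≤ k → ∀ (K : Set (EuclideanSpace ℝ (Fin k))) (_ : SmoothBody K),
    ∀ p ∈ frontier K, ∃ (ν : EuclideanSpace ℝ (Fin k)) (R : ℝ), ‖ν‖ = 1 ∧ 0 < R ∧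
      ∀ y ∈ K, ‖y - p‖ ^ 2 ≤ 2 * R * inner ℝ (p - y) ν

/-- RP-L2: uniform outer balls on a patch of the boundary (Baire). -/
def S_L2 : Prop :=
  ∀ k : ℕ, 1 ≤ k → ∀ (K : Set (EuclideanSpace ℝ (Fin k))) (_ : Body K),
    (∀ p ∈ frontier K, ∃ (ν : EuclideanSpace ℝ (Fin k)) (R : ℝ), ‖ν‖ = 1 ∧ 0 < R ∧
      ∀ y ∈ K, ‖y - p‖ ^ 2 ≤ 2 * R * inner ℝ (p - y) ν) →
    ∃ p₀ ∈ frontier K, ∃ r R : ℝ, 0 < r ∧ 0 < R ∧ ∀ p ∈ frontier K, dist p p₀ < r →
      ∃ ν : EuclideanSpace ℝ (Fin k), ‖ν‖ = 1 ∧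
        ∀ y ∈ K, ‖y - p‖ ^ 2 ≤ 2 * R * inner ℝ (p - y) ν

/-- RP-L3: the volume of a ball cap. -/
def S_L3 : Prop :=
  ∀ k : ℕ, 1 ≤ k → ∀ R : ℝ, 0 < R → ∃ C : ℝ, 0 < C ∧
    ∀ (p ν : EuclideanSpace ℝ (Fin k)) (h : ℝ), ‖ν‖ = 1 → 0 < h →
    volume {y : EuclideanSpace ℝ (Fin k) | ‖y - p‖ ^ 2 ≤ 2 * R * inner ℝ (p - y) ν ∧
      inner ℝ (p - y) ν ≤ h} ≤ ENNReal.ofReal (C * h ^ (((k : ℝ) + 1) / 2))

/-- RP-L4: the function measuring the depth near the patch. -/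
def S_L4 : Prop :=
  ∀ k : ℕ, 1 ≤ k → ∀ (K : Set (EuclideanSpace ℝ (Fin k))) (_ : Body K)
    (x₀ p₀ : EuclideanSpace ℝ (Fin k)) (_ : x₀ ∈ interior K) (_ : p₀ ∈ frontier K) (r : ℝ) (_ : 0 < r),
    ∃ (T : EuclideanSpace ℝ (Fin k) → ℝ) (c : ℝ), Measurable T ∧ 0 < c ∧ (∀ z, 0 < T z) ∧
      (∀ s : ℝ, 0 < s → s ≤ 1 → ENNReal.ofReal (c * s) ≤ unif volume K {z | T z ≤ s}) ∧
      ∀ z ∈ K, T z ≤ 1 → ∃ p ∈ frontier K, dist p p₀ < r ∧
        z = x₀ + (1 - T z) • (p - x₀)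

/-- The conclusion of the lower bound for one body. -/
def LowBody {k : ℕ} (K : Set (EuclideanSpace ℝ (Fin k))) : Prop :=
  ∃ (T : EuclideanSpace ℝ (Fin k) → ℝ) (c A B : ℝ), Measurable T ∧ 0 < c ∧ 0 < A ∧ 0 < B ∧
    (∀ z, 0 < T z) ∧
    (∀ s : ℝ, 0 < s → s ≤ 1 → ENNReal.ofReal (c * s) ≤ unif volume K {z | T z ≤ s}) ∧
    ∀ z ∈ K, T z ≤ 1 → ∃ ν : EuclideanSpace ℝ (Fin k) →L[ℝ] ℝ,
      (∀ y ∈ K, ν (y - z) ≤ A * T z) ∧
      ∀ h : ℝ, 0 ≤ h → unif volume K {y | -(h * T z) ≤ ν (y - z)} ≤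
        ENNReal.ofReal (B * ((1 + h) * T z) ^ (((k : ℝ) + 1) / 2))

/-- RP-L: the lower bound for one body. -/
def S_L : Prop :=
  ∀ k : ℕ, 1 ≤ k → ∀ (K : Set (EuclideanSpace ℝ (Fin k))) (_ : SmoothBody K), LowBody K

/-- RP-BALL: the unit ball is smooth. -/
def S_BALL : Prop :=
  ∀ k : ℕ, 1 ≤ k → SmoothBody (Metric.closedBall (0 : EuclideanSpace ℝ (Fin k)) 1)

/-! ### Products -/

/-- RP-PR: products of bodies. -/
def S_PR : Prop :=
  ∀ (m : ℕ) (d : Fin m → ℕ) (K : ∀ i, Set (EuclideanSpace ℝ (Fin (d i)))) (_ : ∀ i, Body (K i)),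
    Body (prodBody K) ∧ Module.finrank ℝ (∀ i, EuclideanSpace ℝ (Fin (d i))) = ∑ i, d i ∧
    (∀ i, IsProbabilityMeasure (unif (volume : Measure (EuclideanSpace ℝ (Fin (d i)))) (K i))) ∧
    unif volume (prodBody K) = Measure.pi (fun i => unif volume (K i)) ∧
    ∀ z, macP volume (prodBody K) z = ∏ i, macP volume (K i) (z i)

/-- RP-PL: caps of products; lower bound. -/
def S_PL : Prop :=
  ∀ (m : ℕ) (_ : 0 < m) (d : Fin m → ℕ) (_ : ∀ i, 0 < d i)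
    (K : ∀ i, Set (EuclideanSpace ℝ (Fin (d i)))) (_ : ∀ i, Body (K i))
    (_ : ∀ i, LowBody (K i)), ∃ c : ℝ, 0 < c ∧ ∀ t : ℝ, 0 < t → t ≤ 1 →
    ∃ A : Set (∀ i, EuclideanSpace ℝ (Fin (d i))), MeasurableSet A ∧
      (∀ z ∈ A, ∃ l : (∀ i, EuclideanSpace ℝ (Fin (d i))) →L[ℝ] ℝ,
        unif volume (prodBody K) {y | l z ≤ l y} ≤ ENNReal.ofReal t) ∧
      ENNReal.ofReal c * Wf (fun i => 2 / ((d i : ℝ) + 1)) t ≤ unif volume (prodBody K) A

/-- RP-PU: upper bound for products. -/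
def S_PU : Prop :=
  ∀ (m : ℕ) (d : Fin m → ℕ) (_ : ∀ i, 0 < d i)
    (K : ∀ i, Set (EuclideanSpace ℝ (Fin (d i)))) (_ : ∀ i, Body (K i)),
    ∃ C : ℝ, 0 ≤ C ∧ ∀ t : ℝ, 0 < t →
      unif volume (prodBody K) {z | (macP volume (prodBody K) z).toReal ≤ t} ≤
        ENNReal.ofReal C * Wf (fun i => 2 / ((d i : ℝ) + 1)) t

/-- RP-MAIN: two-sided bounds. -/
def S_MAIN : Prop :=
  ∀ (m : ℕ) (_ : 0 < m) (d : Fin m → ℕ) (_ : ∀ i, 0 < d i)
    (K : ∀ i, Set (EuclideanSpace ℝ (Fin (d i)))) (_ : ∀ i, SmoothBody (K i)),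
    ∃ c C : ℝ, 0 < c ∧ ∃ n₀ : ℕ, ∀ n ≥ n₀,
      (ENNReal.ofReal c * Wf (fun i => 2 / ((d i : ℝ) + 1)) (1 / n) ≤
          outP volume (prodBody K) n ∧
        outP volume (prodBody K) n ≤
          ENNReal.ofReal C * Wf (fun i => 2 / ((d i : ℝ) + 1)) (1 / n)) ∧
      ∀ j < ∑ i, d i,
        ENNReal.ofReal (c * n) * Wf (fun i => 2 / ((d i : ℝ) + 1)) (1 / n) ≤
          ENNReal.ofReal (expFaces (prodBody K) n j) ∧
        ENNReal.ofReal (expFaces (prodBody K) n j) ≤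
          ENNReal.ofReal (C * n) * Wf (fun i => 2 / ((d i : ℝ) + 1)) (1 / n)

end Pool.Agent.W712.RP
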