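import Pool.Agent.W712.RP.Main
import Pool.Agent.W712.RP.Fin
import Pool.Agent.W371.RP.GP
import Pool.Agent.W371.RP.Face
import Pool.Agent.W371.RP.EFB
import Pool.Agent.W371.RP.Low
import Pool.Agent.W371.RP.Prod
import Pool.Agent.W199.RP.CNT
import Pool.Agent.W199.RP.EFA
import Pool.Agent.W381.RP.MF
import Pool.Agent.W521.RP.MH
import Pool.Agent.W521.RP.EFC
import Pool.Agent.W521.RP.L4
import Pool.Agent.W140.RP.Def
import Pool.Agent.W712.RP.UpFix
import Pool.Agent.W342.RP.Cap
import Pool.Agent.W315.RP.Hel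
import Pool.Agent.W315.RP.Wg
import Pool.Agent.W686.RP.Mac
import Pool.Agent.W686.RP.PU
import Pool.Agent.W605.RP.Sum
import Pool.Agent.W880.RP.WU
import Pool.Agent.W356.RP.WE
import Pool.Agent.W356.RP.U4
import Pool.Agent.W356.RP.U5
import Pool.Agent.W773.RP.Box
import Pool.Agent.W291.RP.U2
import Pool.Agent.W291.RP.U3
import Pool.Agent.W291.RP.U6
import Pool.Agent.W743.RP.L2
import Pool.Agent.W743.RP.Low

/-!
Project RP (helper712), problem MP_5ec613_pr: assembly of the parts.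
-/

set_option autoImplicit false

namespace Pool.Agent.W712.RP

/-- Distribution of the Macbeath volume, before normalisation. -/
theorem all_u6 : S_U6 :=
  Pool.Agent.W291.RP.u6 Pool.Agent.W773.RP.u1 Pool.Agent.W291.RP.u3 Pool.Agent.W356.RP.u4
    (Pool.Agent.W356.RP.u5 Pool.Agent.W291.RP.u2 Pool.Agent.W291.RP.u3 Pool.Agent.W356.RP.u4)

/-- Assembly of all parts except the three listed ones. -/
theorem all0 (hU : S_U6 → S_U) (hL1 : S_L1) (hPL : S_WL → S_WG → S_PR → S_PL) : FinalStm :=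
  have gp : S_GP := Pool.Agent.W371.RP.gp
  have fs : S_FS := Pool.Agent.W371.RP.fs
  have fe : S_FE := Pool.Agent.W371.RP.fe fs
  have cnt : S_CNT := Pool.Agent.W199.RP.sCNT
  have mf : S_MF := Pool.Agent.W381.RP.s_mf
  have mh : S_MH := Pool.Agent.W521.RP.mh
  have efa : S_EFA := Pool.Agent.W199.RP.efa gp Pool.Agent.W371.RP.fc mf
  have efb : S_EFB := Pool.Agent.W371.RP.efb gp fs fe cnt mf
  have efc : S_EFC := Pool.Agent.W521.RP.efc Pool.Agent.W371.RP.vx mh
  have hdef : S_DEF := Pool.Agent.W140.RP.deficit mh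
  have low : S_LOW := Pool.Agent.W371.RP.low'
  have wg : S_WG := Pool.Agent.W315.RP.wg
  have we : S_WE := Pool.Agent.W356.RP.we wg
  have pr : S_PR := Pool.Agent.W371.RP.pr
  have hsum : S_SUM := Pool.Agent.W605.RP.sum (UpFix.up gp)
    (mac gp (Pool.Agent.W342.RP.cap Pool.Agent.W315.RP.hel))
  have hL : S_L := Pool.Agent.W743.RP.low_body hL1 Pool.Agent.W743.RP.l2 Pool.Agent.W773.RP.l3
    Pool.Agent.W521.RP.l4
  have hPU : S_PU := pu (hU all_u6) Pool.Agent.W880.RP.wu pr
  fin pr Pool.Agent.W371.RP.ball efa hdef wg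
    (main pr efa efb efc low hsum hL (hPL Pool.Agent.W880.RP.wl wg pr) hPU wg we)

end Pool.Agent.W712.RP
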