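import Mathlib

/-!
Project RP (helper712), problem MP_5ec613_pr: random polytopes in products of smooth convex bodies.
Definitions used in the final statement.
-/

set_option autoImplicit false

open MeasureTheory Set Filter Topology
open scoped ENNReal

namespace Pool.Agent.W712.RP

/-- Convex body: compact, convex, with nonempty interior. -/
structure Body {E : Type} [NormedAddCommGroup E] [NormedSpace ℝ E] (L : Set E) : Prop where
  convex : Convex ℝ L
  compact : IsCompact L
  interior_nonempty : (interior L).Nonempty

/-- A convex body in `ℝ^k` whose boundary is twice differentiable (in the weak sense of second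
order expansions) with strictly positive Gaussian curvature at every point: at every boundary
point `p` there are a unit outer normal `ν` and a bilinear form `q` (the second fundamental form,
extended to the whole space in any way), positive definite on the tangent space `ν^⊥`, such that
for boundary points `y → p` the depth `⟪p - y, ν⟫` of `y` below the tangent hyperplane at `p` is
`q (y - p) (y - p) / 2 + o(‖y - p‖²)`. -/
structure SmoothBody {k : ℕ} (K : Set (EuclideanSpace ℝ (Fin k))) : Prop extends Body K where
  curved : ∀ p ∈ frontier K, ∃ (ν : EuclideanSpace ℝ (Fin k))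
    (q : EuclideanSpace ℝ (Fin k) →L[ℝ] EuclideanSpace ℝ (Fin k) →L[ℝ] ℝ), ‖ν‖ = 1 ∧
    (∀ y ∈ K, inner ℝ (y - p) ν ≤ 0) ∧
    (∀ w : EuclideanSpace ℝ (Fin k), inner ℝ w ν = 0 → w ≠ 0 → 0 < q w w) ∧
    (fun y => inner ℝ (p - y) ν - q (y - p) (y - p) / 2) =o[𝓝[frontier K] p]
      (fun y => ‖y - p‖ ^ 2)

/-- The uniform distribution on `L`. -/
noncomputable def unif {E : Type} [MeasurableSpace E] (μ : Measure E) (L : Set E) : Measure E :=
  (μ L)⁻¹ • μ.restrict L

/-- The number of `j`-dimensional faces of a polytope `P`. -/
noncomputable def faceNum {E : Type} [NormedAddCommGroup E] [NormedSpace ℝ E]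
    (P : Set E) (j : ℕ) : ℕ :=
  Set.ncard {F : Set E | IsExposed ℝ P F ∧ F.Nonempty ∧ Module.finrank ℝ (vectorSpan ℝ F) = j}

/-- The law of `n` independent random points, each uniformly distributed in `L`. -/
noncomputable def law {E : Type} [NormedAddCommGroup E] [NormedSpace ℝ E] [MeasureSpace E]
    (L : Set E) (n : ℕ) : Measure (Fin n → E) :=
  Measure.pi fun _ : Fin n => unif (volume : Measure E) L

/-- The expected number of `j`-dimensional faces of the convex hull of `n` independent uniform
points in `L`. -/
noncomputable def expFaces {E : Type} [NormedAddCommGroup E] [NormedSpace ℝ E] [MeasureSpace E]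
    (L : Set E) (n j : ℕ) : ℝ :=
  ∫ x : Fin n → E, (faceNum (convexHull ℝ (Set.range x)) j : ℝ) ∂(law L n)

/-- The expected volume of the convex hull of `n` independent uniform points in `L`. -/
noncomputable def expVol {E : Type} [NormedAddCommGroup E] [NormedSpace ℝ E] [MeasureSpace E]
    (L : Set E) (n : ℕ) : ℝ :=
  ∫ x : Fin n → E, (volume (convexHull ℝ (Set.range x))).toReal ∂(law L n)

/-- The product of the sets `K i`. -/
def prodBody {m : ℕ} {d : Fin m → ℕ} (K : ∀ i, Set (EuclideanSpace ℝ (Fin (d i)))) :
    Set (∀ i, EuclideanSpace ℝ (Fin (d i))) :=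
  Set.pi Set.univ K

/-- The product of Euclidean unit balls. -/
def prodBall {m : ℕ} (d : Fin m → ℕ) : Set (∀ i, EuclideanSpace ℝ (Fin (d i))) :=
  prodBody fun i => Metric.closedBall (0 : EuclideanSpace ℝ (Fin (d i))) 1

/-- `a n ≍ b n`: both sequences are eventually positive and their ratio stays between two
positive constants. -/
def Asymp (a b : ℕ → ℝ) : Prop :=
  ∃ c C : ℝ, 0 < c ∧ ∃ n₀ : ℕ, ∀ n ≥ n₀, 0 < b n ∧ c * b n ≤ a n ∧ a n ≤ C * b n

/-- The expectations defining `expFaces` and `expVol` are integrals of integrable functions. -/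
def WellDefined {E : Type} [NormedAddCommGroup E] [NormedSpace ℝ E] [MeasureSpace E]
    (L : Set E) : Prop :=
  IsProbabilityMeasure (unif (volume : Measure E) L) ∧
  (∀ n, Module.finrank ℝ E + 1 ≤ n → ∀ j < Module.finrank ℝ E,
    Integrable (fun x : Fin n → E => (faceNum (convexHull ℝ (Set.range x)) j : ℝ)) (law L n)) ∧
  ∀ n, Integrable (fun x : Fin n → E => (volume (convexHull ℝ (Set.range x))).toReal) (law L n)

/-- The final statement. -/
def FinalStm : Prop :=
  ∀ (m : ℕ) (_ : 0 < m) (d : Fin m → ℕ) (_ : ∀ i, 0 < d i)
    (K : ∀ i, Set (EuclideanSpace ℝ (Fin (d i)))) (_ : ∀ i, SmoothBody (K i)),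
    WellDefined (prodBody K) ∧ WellDefined (prodBall d) ∧
    (∀ j < ∑ i, d i, Asymp (fun n => expFaces (prodBody K) n j)
      (fun n => expFaces (prodBall d) n j)) ∧
    Asymp (fun n => (volume (prodBody K)).toReal - expVol (prodBody K) n)
      (fun n => (volume (prodBall d)).toReal - expVol (prodBall d) n)

end Pool.Agent.W712.RP
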