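import Pool.Agent.W712.RP.Stm

/-!
Project RP (helper712): the two-sided bounds.
-/

set_option autoImplicit false

open MeasureTheory Set Filter Topology
open scoped ENNReal

namespace Pool.Agent.W712.RP

/-- measurability of the Macbeath volume -/
theorem measurable_macP {E : Type} [NormedAddCommGroup E] [NormedSpace ℝ E]
    [FiniteDimensional ℝ E] [MeasurableSpace E] [BorelSpace E] (μ : Measure E) (L : Set E)
    (hL : IsClosed L) [SFinite (unif μ L)] : Measurable (macP μ L) := by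
  have hc : IsClosed {p : E × E | p.1 + (1 : ℝ)⁻¹ • (p.2 - p.1) ∈ L ∧
      p.1 - (1 : ℝ)⁻¹ • (p.2 - p.1) ∈ L} := by
    apply IsClosed.inter
    · exact hL.preimage (by fun_prop)
    · exact hL.preimage (by fun_prop)
  exact measurable_measure_prodMk_left (ν := unif μ L) hc.measurableSet

/-- facets from the distribution of the Macbeath volume -/
theorem facet_bound (hPR : S_PR) (hSUM : S_SUM) (hPU : S_PU) (hWE : S_WE) {m : ℕ} (hm : 0 < m)
    (d : Fin m → ℕ) (hd : ∀ i, 0 < d i) (K : ∀ i, Set (EuclideanSpace ℝ (Fin (d i))))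
    (hK : ∀ i, Body (K i)) :
    ∃ C : ℝ, 0 ≤ C ∧ ∀ n : ℕ, 2 * ∑ i, d i ≤ n →
      ∑ I ∈ Finset.powersetCard (∑ i, d i) (Finset.univ : Finset (Fin n)),
        faceP volume (prodBody K) n I ≤
        ENNReal.ofReal (C * n) * Wf (fun i => 2 / ((d i : ℝ) + 1)) (1 / n) := by
  obtain ⟨hB, hfr, hP, hun, -⟩ := hPR m d K hK
  have hprob : IsProbabilityMeasure (unif (volume : Measure (∀ i, EuclideanSpace ℝ (Fin (d i))))
      (prodBody K)) := by
    rw [hun]
    infer_instance
  have hDpos : 0 < ∑ i, d i := Finset.sum_pos (fun i _ => hd i) ⟨⟨0, hm⟩, Finset.mem_univ _⟩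
  obtain ⟨k, hk⟩ : ∃ k, ∑ i, d i = k + 1 := ⟨∑ i, d i - 1, by omega⟩
  obtain ⟨C1, hC1⟩ := hSUM k
  obtain ⟨C2, hC2, h2⟩ := hPU m d hd K hK
  have ha : ∀ i, 0 < 2 / ((d i : ℝ) + 1) ∧ 2 / ((d i : ℝ) + 1) ≤ 1 := fun i => ⟨by positivity, by
      have : (1 : ℝ) ≤ d i := by exact_mod_cast hd i
      rw [div_le_one (by positivity)]
      linarith⟩
  obtain ⟨C3, h3⟩ := hWE m hm (fun i => 2 / ((d i : ℝ) + 1)) ha C2 hC2
  refine ⟨|C1| * |C3|, by positivity, fun n hn => ?_⟩
  have hn1 : 1 ≤ n := by omega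
  have hmeas : Measurable fun z => (macP volume (prodBody K) z).toReal :=
    (measurable_macP volume (prodBody K) hB.compact.isClosed).ennreal_toReal
  have e1 := hC1 _ (volume : Measure (∀ i, EuclideanSpace ℝ (Fin (d i)))) (prodBody K) hB
    (by rw [hfr, hk]) n (by omega)
  have e2 := h3 _ (unif volume (prodBody K)) (fun z => (macP volume (prodBody K) z).toReal) hmeas
    (fun z => ENNReal.toReal_nonneg) h2 n hn1
  rw [hk]
  calc _ ≤ ENNReal.ofReal (C1 * n) * _ := e1
    _ ≤ ENNReal.ofReal (C1 * n) * (ENNReal.ofReal C3 * _) := mul_le_mul_right e2 _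
    _ ≤ ENNReal.ofReal (|C1| * n) * (ENNReal.ofReal |C3| * _) := by
        apply mul_le_mul'
        · apply ENNReal.ofReal_le_ofReal
          exact mul_le_mul_of_nonneg_right (le_abs_self _) (Nat.cast_nonneg _)
        · exact mul_le_mul_left (ENNReal.ofReal_le_ofReal (le_abs_self _)) _
    _ = _ := by
        rw [← mul_assoc, ← ENNReal.ofReal_mul (by positivity)]
        congr 2
        ring

theorem main (hPR : S_PR) (hEFA : S_EFA) (hEFB : S_EFB) (hEFC : S_EFC) (hLOW : S_LOW)
    (hSUM : S_SUM) (hL : S_L) (hPL : S_PL) (hPU : S_PU) (hWG : S_WG) (hWE : S_WE) : S_MAIN := by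
  intro m hm d hd K hK
  have hKB : ∀ i, Body (K i) := fun i => (hK i).toBody
  obtain ⟨hB, hfr, hP, hun, -⟩ := hPR m d K hKB
  have hprob : IsProbabilityMeasure (unif (volume : Measure (∀ i, EuclideanSpace ℝ (Fin (d i))))
      (prodBody K)) := by
    rw [hun]
    infer_instance
  set a : Fin m → ℝ := fun i => 2 / ((d i : ℝ) + 1) with ha_def
  have ha : ∀ i, 0 < a i ∧ a i ≤ 1 := fun i => ⟨by positivity, by
      have : (1 : ℝ) ≤ d i := by exact_mod_cast hd i
      simp only [ha_def]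
      rw [div_le_one (by positivity)]
      linarith⟩
  obtain ⟨hWp, hWm, hWgr⟩ := hWG m hm a ha
  have hDpos : 0 < ∑ i, d i := Finset.sum_pos (fun i _ => hd i) ⟨⟨0, hm⟩, Finset.mem_univ _⟩
  obtain ⟨c, hc, hcap⟩ := hPL m hm d hd K hKB (fun i => hL (d i) (hd i) (K i) (hK i))
  obtain ⟨C, hC, hfac⟩ := facet_bound hPR hSUM hPU hWE hm d hd K hKB
  set D := ∑ i, d i with hD
  -- lower bound for outP
  have hlow : ∀ n : ℕ, 2 ≤ n → ENNReal.ofReal (c / 4) * Wf a (1 / n) ≤
      outP volume (prodBody K) n := by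
    intro n hn
    have hn' : (0 : ℝ) < n := by positivity
    obtain ⟨A, hA, hA1, hA2⟩ := hcap (1 / n) (by positivity) (by
      rw [div_le_one hn']
      exact_mod_cast (by omega : 1 ≤ n))
    have h4 := hLOW _ volume (prodBody K) hB n hn A hA hA1
    have h5 : ENNReal.ofReal c * Wf a (1 / n) ≤ 4 * outP volume (prodBody K) n := hA2.trans h4
    have h6 : ENNReal.ofReal (c / 4) = ENNReal.ofReal c / 4 := by
      rw [ENNReal.ofReal_div_of_pos (by norm_num)]
      norm_num
    rw [h6, ENNReal.div_eq_inv_mul, mul_assoc]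
    calc (4 : ℝ≥0∞)⁻¹ * (ENNReal.ofReal c * Wf a (1 / n))
        ≤ 4⁻¹ * (4 * outP volume (prodBody K) n) := mul_le_mul_right h5 _
      _ = outP volume (prodBody K) n := by
        rw [← mul_assoc, ENNReal.inv_mul_cancel (by norm_num) (by norm_num), one_mul]
  -- the sum over singletons
  have hsing : ∀ n : ℕ, ∑ I ∈ Finset.powersetCard 1 (Finset.univ : Finset (Fin (n + 1))),
      faceP volume (prodBody K) (n + 1) I =
      ENNReal.ofReal ((n : ℝ) + 1) * outP volume (prodBody K) n := by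
    intro n
    have hsum : ∑ I ∈ Finset.powersetCard 1 (Finset.univ : Finset (Fin (n + 1))),
        faceP volume (prodBody K) (n + 1) I =
        ∑ _i : Fin (n + 1), outP volume (prodBody K) n := by
      rw [Finset.powersetCard_one, Finset.sum_map]
      apply Finset.sum_congr rfl
      intro i _
      exact hEFC _ volume (prodBody K) hB n i
    rw [hsum]
    rw [Finset.sum_const, Finset.card_univ, Fintype.card_fin, nsmul_eq_mul]
    congr 1
    rw [← Nat.cast_succ, ENNReal.ofReal_natCast]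
  have hofE : ∀ n : ℕ, D + 1 ≤ n → ∀ j < D, ENNReal.ofReal (expFaces (prodBody K) n j) =
      ∑ I ∈ Finset.powersetCard (j + 1) (Finset.univ : Finset (Fin n)),
        faceP volume (prodBody K) n I := by
    intro n hn j hj
    exact (hEFA _ volume (prodBody K) hB n (by rw [hfr]; exact hn) j (by rw [hfr]; exact hj)).2
  have hEFB' : ∀ n : ℕ, D + 1 ≤ n → ∀ j < D,
      ∑ I ∈ Finset.powersetCard 1 (Finset.univ : Finset (Fin n)), faceP volume (prodBody K) n I ≤
      ((j + 1 : ℕ) : ℝ≥0∞) *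
        ∑ I ∈ Finset.powersetCard (j + 1) (Finset.univ : Finset (Fin n)),
          faceP volume (prodBody K) n I ∧
      ∑ I ∈ Finset.powersetCard (j + 1) (Finset.univ : Finset (Fin n)),
        faceP volume (prodBody K) n I ≤
      (D.choose (j + 1) : ℝ≥0∞) *
        ∑ I ∈ Finset.powersetCard D (Finset.univ : Finset (Fin n)),
          faceP volume (prodBody K) n I := by
    intro n hn j hj
    have := hEFB _ volume (prodBody K) hB n (by rw [hfr]; exact hn) j (by rw [hfr]; exact hj)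
    rwa [hfr] at this
  -- constants
  have h2D : (D.choose 1 : ℝ≥0∞) = ENNReal.ofReal D := by
    rw [Nat.choose_one_right, ENNReal.ofReal_natCast]
  refine ⟨c / (8 * D), (D : ℝ) * C + 2 ^ D * C, by positivity, 2 * D + 2, fun n hn => ?_⟩
  have hn2 : 2 ≤ n := by omega
  have hn0 : (0 : ℝ) < n := by positivity
  refine ⟨⟨?_, ?_⟩, fun j hj => ⟨?_, ?_⟩⟩
  · refine le_trans ?_ (hlow n hn2)
    apply mul_le_mul_left
    apply ENNReal.ofReal_le_ofReal
    have hD1 : (1 : ℝ) ≤ D := by exact_mod_cast hDpos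
    gcongr
    linarith
  · -- upper bound for outP
    have e1 := (hEFB' (n + 1) (by omega) 0 hDpos).2
    rw [zero_add, hsing n, h2D] at e1
    have e2 := hfac (n + 1) (by omega)
    have hW1 : Wf a (1 / ((n + 1 : ℕ) : ℝ)) ≤ Wf a (1 / n) := by
      apply hWm
      apply one_div_le_one_div_of_le hn0
      push_cast
      linarith
    have e3 : ENNReal.ofReal ((n : ℝ) + 1) * outP volume (prodBody K) n ≤
        ENNReal.ofReal ((n : ℝ) + 1) * (ENNReal.ofReal (D * C) * Wf a (1 / n)) := by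
      calc _ ≤ _ := e1
        _ ≤ ENNReal.ofReal D * (ENNReal.ofReal (C * ((n + 1 : ℕ) : ℝ)) * Wf a (1 / n)) := by
            apply mul_le_mul_right
            exact e2.trans (mul_le_mul_right hW1 _)
        _ = _ := by
            rw [← mul_assoc, ← mul_assoc, ← ENNReal.ofReal_mul (by positivity),
              ← ENNReal.ofReal_mul (by positivity)]
            congr 2
            push_cast
            ring
    have hne : ENNReal.ofReal ((n : ℝ) + 1) ≠ 0 := by
      rw [Ne, ENNReal.ofReal_eq_zero, not_le]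
      positivity
    have e4 := (ENNReal.mul_le_mul_iff_right hne ENNReal.ofReal_ne_top).1 e3
    refine e4.trans ?_
    apply mul_le_mul_left
    apply ENNReal.ofReal_le_ofReal
    have : 0 ≤ 2 ^ D * C := by positivity
    linarith
  · -- lower bound for expFaces
    obtain ⟨n', rfl⟩ : ∃ n', n = n' + 1 := ⟨n - 1, by omega⟩
    rw [hofE (n' + 1) (by omega) j hj]
    have e1 := (hEFB' (n' + 1) (by omega) j hj).1
    rw [hsing n'] at e1
    have e2 := hlow n' (by omega)
    have hW1 : Wf a (1 / ((n' + 1 : ℕ) : ℝ)) ≤ Wf a (1 / n') := by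
      apply hWm
      apply one_div_le_one_div_of_le
      · have : 0 < n' := by omega
        positivity
      · push_cast
        linarith
    have hj1 : ((j + 1 : ℕ) : ℝ≥0∞) ≠ 0 := by simp
    have hj2 : ((j + 1 : ℕ) : ℝ≥0∞) ≠ ⊤ := ENNReal.natCast_ne_top _
    rw [← ENNReal.mul_le_mul_iff_right hj1 hj2]
    refine le_trans ?_ e1
    calc ((j + 1 : ℕ) : ℝ≥0∞) * (ENNReal.ofReal (c / (8 * D) * ((n' + 1 : ℕ) : ℝ)) *
          Wf a (1 / ((n' + 1 : ℕ) : ℝ)))
        ≤ ((j + 1 : ℕ) : ℝ≥0∞) * (ENNReal.ofReal (c / (8 * D) * ((n' + 1 : ℕ) : ℝ)) *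
          Wf a (1 / n')) := by gcongr
      _ = ENNReal.ofReal (((j + 1 : ℕ) : ℝ) * (c / (8 * D) * ((n' + 1 : ℕ) : ℝ))) *
          Wf a (1 / n') := by
          rw [← mul_assoc, ← ENNReal.ofReal_natCast (j + 1), ← ENNReal.ofReal_mul (by positivity)]
      _ ≤ ENNReal.ofReal (((n' : ℝ) + 1) * (c / 4)) * Wf a (1 / n') := by
          apply mul_le_mul_left
          apply ENNReal.ofReal_le_ofReal
          have hjD : ((j + 1 : ℕ) : ℝ) ≤ D := by exact_mod_cast hj
          have hD1 : (0 : ℝ) < D := by exact_mod_cast hDpos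
          calc ((j + 1 : ℕ) : ℝ) * (c / (8 * D) * ((n' + 1 : ℕ) : ℝ))
              ≤ (D : ℝ) * (c / (8 * D) * ((n' + 1 : ℕ) : ℝ)) := by gcongr
            _ = c / 8 * ((n' + 1 : ℕ) : ℝ) := by field_simp
            _ ≤ ((n' : ℝ) + 1) * (c / 4) := by
              push_cast
              nlinarith [hc, (Nat.cast_nonneg n' : (0 : ℝ) ≤ n')]
      _ = ENNReal.ofReal ((n' : ℝ) + 1) * (ENNReal.ofReal (c / 4) * Wf a (1 / n')) := by
          rw [← mul_assoc, ← ENNReal.ofReal_mul (by positivity)]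
      _ ≤ _ := mul_le_mul_right e2 _
  · -- upper bound for expFaces
    rw [hofE n (by omega) j hj]
    have e1 := (hEFB' n (by omega) j hj).2
    have e2 := hfac n (by omega)
    refine e1.trans ?_
    calc (D.choose (j + 1) : ℝ≥0∞) * _ ≤ (D.choose (j + 1) : ℝ≥0∞) *
          (ENNReal.ofReal (C * n) * Wf a (1 / n)) := mul_le_mul_right e2 _
      _ = ENNReal.ofReal ((D.choose (j + 1) : ℝ) * (C * n)) * Wf a (1 / n) := by
          rw [← mul_assoc, ← ENNReal.ofReal_natCast, ← ENNReal.ofReal_mul (by positivity)]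
      _ ≤ _ := by
          apply mul_le_mul_left
          apply ENNReal.ofReal_le_ofReal
          have hch : (D.choose (j + 1) : ℝ) ≤ 2 ^ D := by exact_mod_cast Nat.choose_le_two_pow D (j + 1)
          have hDC : 0 ≤ (D : ℝ) * C * n := by positivity
          calc (D.choose (j + 1) : ℝ) * (C * n) ≤ 2 ^ D * (C * n) := by gcongr
            _ ≤ ((D : ℝ) * C + 2 ^ D * C) * n := by nlinarith

end Pool.Agent.W712.RP
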